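import Pool.Agent.Lib.MP_e51b07_al.Main

set_option autoImplicit false

namespace Pool.Agent.Results.MP_e51b07_al.NotEveryBlockPermanent

open Pool.Agent.Lib.MP_e51b07_al

universe u

/-- **Negative answer to Q1.** For every prime `p ≥ 5`, the permanent of the block diagonal
averaging matrix with blocks of sizes `2` and `p` is not equal to `P_G(H, K)` for any finite
group `G` and any subgroups `H`, `K` of `G` of the same order. -/
theorem result (p : ℕ) (hp : p.Prime) (h5 : 5 ≤ p) (G : Type u) [Group G] [Finite G]
    (H K : Subgroup G) (hHK : Nat.card H = Nat.card K) :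
    (blockAvg ![2, p]).permanent ≠ ctp H K := by
  intro h
  rw [permanent_blockAvg, Fin.prod_univ_two] at h
  have h' : ctp H K = 1 / 2 * ff p := by
    rw [← h]
    simp [ff_two]
  exact not_attained hp h5 H K hHK h'

end Pool.Agent.Results.MP_e51b07_al.NotEveryBlockPermanent
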