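import Pool.Agent.Lib.MP_e51b07_al.Main

set_option autoImplicit false

namespace Pool.Agent.Results.MP_e51b07_al.NotEveryBlockPermanentOne

open Pool.Agent.Lib.MP_e51b07_al

universe u

/-- **Negative answer to Q2.** For every prime `p ≥ 5`, the permanent of the block diagonal
averaging matrix with blocks of sizes `1`, `2` and `p` is not equal to `P_G(H) = P_G(H, H)` for
any finite group `G` and any subgroup `H` of `G`. -/
theorem result (p : ℕ) (hp : p.Prime) (h5 : 5 ≤ p) (G : Type u) [Group G] [Finite G]
    (H : Subgroup G) :
    (blockAvg ![1, 2, p]).permanent ≠ ctp H H := by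
  intro h
  rw [permanent_blockAvg, Fin.prod_univ_three] at h
  have h' : ctp H H = 1 / 2 * ff p := by
    rw [← h]
    simp [ff_two, ff_one]
  exact not_attained hp h5 H H rfl h'

end Pool.Agent.Results.MP_e51b07_al.NotEveryBlockPermanentOne
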